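import Pool.Agent.Helper78.Avg.XorMain

open Pool.Agent.Helper65.LinSpace Pool.Agent.Helper78.Xor

namespace Pool.Agent.Results.MP_c578c8_lc.FewNonlinearGates

/-- **Uniform circuits with free linear gates and few nonlinear gates are in linear space, but have
exponentially small correlation with some language in linear space.** Let `c` be a number. Every
language computed by uniform circuits of polynomial size `(n + 2) ^ k` over the integers modulo
`m (n + 2) ^ a`, `m ≥ 2`, with addition gates of unbounded fan-in and at most `C n^(2 - ε)`
nonlinear gates (`ε > 0`), and with `c n` nondeterministic input bits, is in `DSPACE(n)`. On the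
other hand there are a language `L` in `DSPACE(n)` and masks `s n` of length `n` such that `L`
consists of the words `w` whose inner product with `s |w|` is odd, and for all such circuits there
is a `c'` such that for all `n` and all advice words `α` (the first of the nondeterministic input
bits), the number of the words of length `n` on which the circuit agrees with `L` differs from
`2^n / 2` by at most `c' (min (|α|, n - |α|) + 1) 2^((n + |α|) / 2)`. -/
theorem result (c : ℕ) :
    (∀ (F : Circ) (k m a : ℕ) (C ε : ℝ) (L : Set (List Bool)), 2 ≤ m → 0 < ε →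
      F.Computes c k m a C ε L → DLINSPACE L) ∧
    ∃ (L : Set (List Bool)) (s : ℕ → List Bool), DLINSPACE L ∧
      (∀ n, (s n).length = n) ∧
      (∀ w, w ∈ L ↔ Odd ((List.zipWith and (s w.length) w).count true)) ∧
      ∀ (F : Circ) (k m a : ℕ) (C ε : ℝ), 2 ≤ m → 0 < ε →
        (∀ n : ℕ, open Classical in
          (((Finset.range ((n + 2) ^ k)).filter fun g => w2 n g ∈ F.nonlin).card : ℝ) ≤
            C * ((n : ℝ) + 1) ^ (2 - ε)) → ∃ c' : ℝ, ∀ (n : ℕ) (α : List Bool),
          |({w : List Bool | w.length = n ∧ (w ∈ L ↔ ∃ v : List Bool,
            (α ++ v).length = c * n ∧ F.vals (m * (n + 2) ^ a) w (α ++ v) ((n + 2) ^ k)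
              ((n + 2) ^ k - 1) = 1)}.ncard : ℝ) - 2 ^ n / 2| ≤
            c' * ((min α.length (n - α.length) : ℕ) + 1) * 2 ^ (((n : ℝ) + α.length) / 2) :=
  ⟨(main c).1, Pool.Agent.Helper78.Avg.xor_main c⟩

end Pool.Agent.Results.MP_c578c8_lc.FewNonlinearGates
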