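import Pool.Agent.Helper78.Avg.MpcMain

open Pool.Agent.Helper65.LinSpace Pool.Agent.Helper78.Mpc

namespace Pool.Agent.Results.MP_c578c8_lc.MassivelyParallel

/-- **Massively parallel computation with few rounds is in linear space, but does not even compute
all of linear space on average.** Let `c` be a number. Every language accepted by an algorithm for
massively parallel computation (MapReduce) with polynomially many machines, at most `C n^(1 - ε)`
rounds, at most `C n^(1 - ε)` bits of memory per machine (`ε > 0`) and at most `c n`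
nondeterministic bits is in `DSPACE(n)`. On the other hand there are a language `L` in `DSPACE(n)`
and masks `s n` of length `n` such that `L` consists of the words `w` whose inner product with
`s |w|` is odd, and for every such algorithm there is a `c'` such that for `M = L` and for `M` the
complement of `L`, for all `n` and all advice words `α` (written in front of the guess), the
algorithm is correct within these bounds on at most
`2^n / 2 + c' (min (|α|, n - |α|) + 1) 2^((n + |α|) / 2)` words of length `n`. -/
theorem result (c : ℕ) :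
    (∀ (A : MPC) (k : ℕ) (L : Set (List Bool)) (C ε : ℝ), 0 < ε →
      A.Accepts k L (fun n => (c : ℝ) * n) (fun n => C * ((n : ℝ) + 1) ^ (1 - ε))
        (fun n => C * ((n : ℝ) + 1) ^ (1 - ε)) → DLINSPACE L) ∧
    ∃ (L : Set (List Bool)) (s : ℕ → List Bool), DLINSPACE L ∧
      (∀ n, (s n).length = n) ∧
      (∀ w, w ∈ L ↔ Odd ((List.zipWith and (s w.length) w).count true)) ∧
      ∀ (A : MPC) (k : ℕ) (C ε : ℝ), 0 < ε → ∃ c' : ℝ, ∀ (n : ℕ) (α : List Bool),
        ∀ M, M = L ∨ M = Lᶜ →
          ({w : List Bool | w.length = n ∧
            (∀ v r, A.AcceptsAt ((n + 2) ^ k) w (α ++ v) r → w ∈ M) ∧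
            (w ∈ M → ∃ (v : List Bool) (r : ℕ), v.length ≤ c * n ∧
              (r : ℝ) ≤ C * ((n : ℝ) + 1) ^ (1 - ε) ∧
              A.Fits ((n + 2) ^ k) w (α ++ v) r (C * ((n : ℝ) + 1) ^ (1 - ε)) ∧
              A.AcceptsAt ((n + 2) ^ k) w (α ++ v) r)}.ncard : ℝ) ≤
          2 ^ n / 2 +
            c' * ((min α.length (n - α.length) : ℕ) + 1) * 2 ^ (((n : ℝ) + α.length) / 2) :=
  ⟨(main c).1, Pool.Agent.Helper78.Avg.mpc_main c⟩

end Pool.Agent.Results.MP_c578c8_lc.MassivelyParallel
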